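import Pool.Agent.R503.CT.Sol
import Pool.Agent.R503.PS.Final
import Pool.Agent.R920.CH.Mod

/-!
# The discriminants of cubic Chern polynomials
-/

set_option autoImplicit false

open Finset Filter Topology

namespace Pool.Agent.R503.CT

open Pool.Agent.R920.CH Polynomial Pool.Agent.R503.PS

/-- `T³ - c₁ T² + c₂ T - c₃` -/
noncomputable def poly3 (c₁ c₂ c₃ : ℤ) : ℤ[X] := X ^ 3 - C c₁ * X ^ 2 + C c₂ * X - C c₃

lemma p3_inj {R : Type} [CommRing R] {a b c a' b' c' : R}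
    (h : (X ^ 3 - C a * X ^ 2 + C b * X - C c : R[X]) = X ^ 3 - C a' * X ^ 2 + C b' * X - C c') :
    a = a' ∧ b = b' ∧ c = c' := by
  have h0 := congrArg (fun q : R[X] => q.coeff 0) h
  have h1 := congrArg (fun q : R[X] => q.coeff 1) h
  have h2 := congrArg (fun q : R[X] => q.coeff 2) h
  simp [coeff_X, coeff_C, coeff_X_pow] at h0 h1 h2
  exact ⟨h2, h1, h0⟩

lemma poly3_monic (c₁ c₂ c₃ : ℤ) : (poly3 c₁ c₂ c₃).Monic := by
  unfold poly3
  monicity!

lemma poly3_natDegree (c₁ c₂ c₃ : ℤ) : (poly3 c₁ c₂ c₃).natDegree = 3 := by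
  unfold poly3
  compute_degree!

/-- the discriminant -/
def disc3 (c₁ c₂ c₃ : ℤ) : ℤ :=
  c₁ ^ 2 * c₂ ^ 2 - 4 * c₂ ^ 3 - 4 * c₁ ^ 3 * c₃ + 18 * c₁ * c₂ * c₃ - 27 * c₃ ^ 2

theorem square_mod3 {n : ℕ} {c₁ c₂ c₃ : ℤ} (hRR : RiemannRoch n (poly3 c₁ c₂ c₃)) (p : ℕ)
    (hp : p.Prime) (hp3 : 3 < p) (hpn : p + 3 ≤ n + 1) : ∃ t : ℤ, (p : ℤ) ∣ disc3 c₁ c₂ c₃ - t ^ 2 := by
  haveI : Fact p.Prime := ⟨hp⟩
  obtain ⟨x, hx⟩ := splits_mod (poly3 c₁ c₂ c₃) (poly3_monic _ _ _) (poly3_natDegree _ _ _) hRR p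
    hp3 hpn
  rw [Fin.prod_univ_three] at hx
  have h1 : (poly3 c₁ c₂ c₃).map (Int.castRingHom (ZMod p)) =
      X ^ 3 - C (c₁ : ZMod p) * X ^ 2 + C (c₂ : ZMod p) * X - C (c₃ : ZMod p) := by
    unfold poly3
    simp
  have h2 : (X - C (x 0)) * (X - C (x 1)) * (X - C (x 2)) =
      X ^ 3 - C (x 0 + x 1 + x 2) * X ^ 2 + C (x 0 * x 1 + x 0 * x 2 + x 1 * x 2) * X -
        C (x 0 * x 1 * x 2) := by
    simp only [C_add, C_mul]
    ring
  rw [h1, h2] at hx
  obtain ⟨e1, e2, e3⟩ := p3_inj hx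
  set t : ZMod p := (x 0 - x 1) * (x 1 - x 2) * (x 2 - x 0) with ht
  refine ⟨(t.val : ℤ), ?_⟩
  apply (ZMod.intCast_zmod_eq_zero_iff_dvd _ _).1
  unfold disc3
  push_cast
  rw [ZMod.natCast_val, ZMod.cast_id, e1, e2, e3, ht]
  ring

/-- square modulo the primes of `(x/2, x]` -/
def SqW (x : ℕ) (D : ℤ) : Prop := ∀ p : ℕ, p.Prime → x / 2 < p → p ≤ x → ∃ t : ℤ, (p : ℤ) ∣ D - t ^ 2

theorem struct3 (A B : ℕ) : ∀ᶠ x : ℕ in atTop, ∀ D : ℤ, ¬ IsSquare D → D.natAbs ≤ (x + 1) ^ A →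
    SqW x D → ∃ (u : ℤ) (d f : ℕ), (u = 1 ∨ u = -1 ∨ u = 2 ∨ u = -2) ∧
      D = u * d * (f : ℤ) ^ 2 ∧ Odd d ∧ Squarefree d ∧ 0 < f ∧ Few x (2 * A) d ∧
      Real.log x ^ B < d := by
  filter_upwards [small_d (2 * A) B, unit_window (2 * A), eventually_ge_atTop 4] with x hsd hun hx4
    D hD hDA hS
  have hD0 : D ≠ 0 := by
    rintro rfl
    exact hD ⟨0, by norm_num⟩
  obtain ⟨u, d, f, hu, hDe, hodd, hsq, hf⟩ := decompose D hD0
  have hp2 : ∀ p : ℕ, p ∈ Ioc (x / 2) x → x + 1 ≤ p ^ 2 := by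
    intro p hp
    rw [mem_Ioc] at hp
    have h1 : x + 1 ≤ 2 * p := by omega
    have h2 : 2 ≤ p := by omega
    nlinarith
  -- the value of the symbol at a prime not dividing `D`
  have hval : ∀ p : ℕ, p.Prime → x / 2 < p → p ≤ x → ¬ (p : ℤ) ∣ D →
      jacobiSym u p * jacobiSym d p = 1 := by
    intro p hp hpx' hpx hpD
    obtain ⟨t, ht⟩ := hS p hp hpx' hpx
    have h1 := jac_D hp hpD ht
    rw [hDe, jacobiSym.mul_left, jacobiSym.mul_left] at h1
    have h2 : jacobiSym ((f : ℤ) ^ 2) p = 1 := by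
      apply jacobiSym.sq_one'
      have h3 : ¬ (p : ℤ) ∣ (f : ℤ) := by
        intro h
        apply hpD
        rw [hDe]
        exact dvd_mul_of_dvd_right (dvd_pow h two_ne_zero) _
      rw [Int.gcd_comm]
      exact (Int.isCoprime_iff_gcd_eq_one.1
        ((Nat.prime_iff_prime_int.1 hp).irreducible.coprime_iff_not_dvd.2 h3))
    rw [h2, mul_one] at h1
    exact h1
  have hfew : Few x (2 * A) d := by
    unfold Few
    refine dvd_card (n := x + 1) (by omega) _ ?_ hD0 hDA ?_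
    · intro p hp
      rw [mem_filter, mem_PP] at hp
      exact ⟨hp.1.2.1, hp2 p (mem_Ioc.2 hp.1.1)⟩
    · intro p hp
      rw [mem_filter, mem_PP] at hp
      by_contra hpD
      apply hp.2
      have hp2' : p ≠ 2 := by
        rintro rfl
        have := hp.1.2.2
        omega
      have hpodd : Odd p := hp.1.2.1.odd_of_ne_two hp2'
      have h1 := hval p hp.1.2.1 hp.1.1.1 hp.1.1.2 hpD
      have h8 := hp.1.2.2
      have hju : jacobiSym u p = 1 := by
        rcases hu with rfl | rfl | rfl | rfl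
        · exact jacobiSym.one_left p
        · rw [jacobiSym.at_neg_one hpodd]
          exact ZMod.χ₄_nat_one_mod_four (by omega)
        · rw [jacobiSym.at_two hpodd, ZMod.χ₈_nat_eq_if_mod_eight, if_neg (by omega),
            if_pos (by omega)]
        · rw [jacobiSym.at_neg_two hpodd, ZMod.χ₈'_nat_eq_if_mod_eight, if_neg (by omega),
            if_pos (by omega)]
      rw [hju, one_mul] at h1
      rw [← jacobiSym.quadratic_reciprocity_one_mod_four' hodd (by omega : p % 4 = 1)]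
      exact h1
  refine ⟨u, d, f, hu, hDe, hodd, hsq, hf, hfew, ?_⟩
  by_contra hle
  rw [not_lt] at hle
  have hd0 : d ≠ 0 := by
    rintro rfl
    exact (Nat.not_odd_iff_even.2 (by decide : Even 0)) hodd
  rcases Nat.lt_or_ge 1 d with h1 | h1
  · exact hsd d hodd hsq h1 hle hfew
  have hd1 : d = 1 := by omega
  have hu1 : u ≠ 1 := by
    rintro rfl
    apply hD
    refine ⟨f, ?_⟩
    rw [hDe, hd1]
    push_cast
    ring
  have hu' : u = -1 ∨ u = 2 ∨ u = -2 := by tauto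
  have h2 := hun u hu'
  have h3 : (neg x u).card ≤ 2 * A := by
    refine dvd_card (n := x + 1) (by omega) _ ?_ hD0 hDA ?_
    · intro p hp
      unfold neg at hp
      rw [mem_filter] at hp
      exact ⟨hp.2.1, hp2 p hp.1⟩
    · intro p hp
      unfold neg at hp
      rw [mem_filter] at hp
      by_contra hpD
      have hpx := mem_Ioc.1 hp.1
      have h4 := hval p hp.2.1 hpx.1 hpx.2 hpD
      rw [hp.2.2, hd1] at h4
      rw [Nat.cast_one, jacobiSym.one_left] at h4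
      norm_num at h4
  omega

/-! ### The number `-27 u d` -/

lemma sq_dvd_le {h c d : ℕ} (hc : 0 < c) (hd : Squarefree d) (hdvd : h ^ 2 ∣ c * d) : h ≤ c := by
  have hd0 : 0 < d := Nat.pos_of_ne_zero hd.ne_zero
  have hh0 : 0 < h := by
    rcases Nat.eq_zero_or_pos h with h0 | h0
    · rw [h0, zero_pow two_ne_zero, zero_dvd_iff] at hdvd
      have : 0 < c * d := by positivity
      omega
    · exact h0
  set e := Nat.gcd (h ^ 2) d with he
  have he0 : 0 < e := Nat.gcd_pos_of_pos_right _ hd0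
  have hed : e ∣ d := Nat.gcd_dvd_right _ _
  have heh : e ∣ h ^ 2 := Nat.gcd_dvd_left _ _
  have he1 : e ∣ h := (Squarefree.squarefree_of_dvd hed hd).dvd_pow_iff_dvd two_ne_zero |>.1 heh
  have he2 : e ≤ h := Nat.le_of_dvd hh0 he1
  obtain ⟨q, hq⟩ := heh
  obtain ⟨d', hd'⟩ := hed
  have hcop : Nat.Coprime q d' := by
    have h1 : e * 1 = e * Nat.gcd q d' := by
      rw [← Nat.gcd_mul_left, ← hq, ← hd', mul_one]
    exact (Nat.eq_of_mul_eq_mul_left he0 h1).symm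
  have h2 : q ∣ c * d' := by
    rw [hq, hd'] at hdvd
    have h3 : e * q ∣ e * (c * d') := by
      have : e * (c * d') = c * (e * d') := by ring
      rw [this]
      exact hdvd
    exact (Nat.mul_dvd_mul_iff_left he0).1 h3
  have h3 : q ∣ c := hcop.dvd_of_dvd_mul_right h2
  have h4 : q ≤ c := Nat.le_of_dvd hc h3
  have h5 : h * h ≤ h * c := by
    calc h * h = h ^ 2 := by ring
      _ = e * q := hq
      _ ≤ h * c := Nat.mul_le_mul he2 h4
  exact Nat.le_of_mul_le_mul_left h5 hh0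

lemma content_le {u : ℤ} (hu : u = 1 ∨ u = -1 ∨ u = 2 ∨ u = -2) {d : ℕ} (hd : Squarefree d) (h : ℕ)
    (hh : (h : ℤ) ^ 2 ∣ 4 * (-27 * u * d)) : h ≤ 216 := by
  have h1 : h ^ 2 ∣ 108 * u.natAbs * d := by
    have := Int.natAbs_dvd_natAbs.2 hh
    rw [Int.natAbs_pow, Int.natAbs_natCast, Int.natAbs_mul, Int.natAbs_mul, Int.natAbs_mul,
      Int.natAbs_natCast] at this
    have h3 : (4 : ℤ).natAbs * ((-27 : ℤ).natAbs * u.natAbs * d) = 108 * u.natAbs * d := by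
      have e1 : (4 : ℤ).natAbs = 4 := rfl
      have e2 : (-27 : ℤ).natAbs = 27 := rfl
      rw [e1, e2]; ring
    rw [h3] at this
    exact this
  have hu1 : u.natAbs = 1 ∨ u.natAbs = 2 := by
    rcases hu with rfl | rfl | rfl | rfl <;> simp
  have h2 := sq_dvd_le (by rcases hu1 with h | h <;> rw [h] <;> norm_num) hd h1
  rcases hu1 with h' | h' <;> rw [h'] at h2 <;> omega

lemma not_square {u : ℤ} (hu : u = 1 ∨ u = -1 ∨ u = 2 ∨ u = -2) {d : ℕ} (hd : Squarefree d)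
    (hodd : Odd d) (hd3 : 3 < d) : ¬ IsSquare (-27 * u * (d : ℤ)) := by
  rintro ⟨s, hs⟩
  have hu1 : u.natAbs = 1 ∨ u.natAbs = 2 := by
    rcases hu with rfl | rfl | rfl | rfl <;> simp
  have h1 : 27 * u.natAbs * d = s.natAbs ^ 2 := by
    have := congrArg Int.natAbs hs
    rw [Int.natAbs_mul, Int.natAbs_mul, Int.natAbs_mul, Int.natAbs_natCast] at this
    have e2 : (-27 : ℤ).natAbs = 27 := rfl
    rw [e2] at this
    rw [this]; ring
  have h2 : d ∣ s.natAbs := by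
    have : d ∣ s.natAbs ^ 2 := by
      rw [← h1]; exact dvd_mul_left _ _
    exact (hd.dvd_pow_iff_dvd two_ne_zero).1 this
  obtain ⟨r, hr⟩ := h2
  have hd0 : 0 < d := by omega
  have h3 : d ∣ 27 * u.natAbs := by
    refine ⟨r ^ 2, ?_⟩
    have : d * (27 * u.natAbs) = d * (d * r ^ 2) := by
      calc d * (27 * u.natAbs) = 27 * u.natAbs * d := by ring
        _ = s.natAbs ^ 2 := h1
        _ = (d * r) ^ 2 := by rw [hr]
        _ = _ := by ring
    exact Nat.eq_of_mul_eq_mul_left hd0 this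
  have h4 : Nat.Coprime d u.natAbs := by
    rcases hu1 with h | h
    · rw [h]; exact Nat.coprime_one_right d
    · rw [h]; exact (Nat.coprime_two_right).2 hodd
  have h5 : d ∣ 3 ^ 3 := h4.dvd_of_dvd_mul_right (by norm_num; exact h3)
  have h6 : d ∣ 3 := (hd.dvd_pow_iff_dvd (by norm_num)).1 h5
  have := Nat.le_of_dvd (by norm_num) h6
  omega

lemma identity (c₁ c₂ c₃ : ℤ) : (2 * c₁ ^ 3 - 9 * c₁ * c₂ + 27 * c₃) ^ 2 + 27 * disc3 c₁ c₂ c₃ =
    4 * (c₁ ^ 2 - 3 * c₂) ^ 3 := by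
  unfold disc3
  ring

end Pool.Agent.R503.CT
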