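import Pool.Agent.R503.CT.Lower

/-!
# The number of possible Chern classes of bundles of rank three: the theorem
-/

set_option autoImplicit false

open Finset Filter Topology

namespace Pool.Agent.R503.CT

open Pool.Agent.R920.CH Polynomial Pool.Agent.R503.PS

lemma final_ineq {H l Dc Wc y N P : ℝ} {K : ℕ} (hH : 1 ≤ H) (hl : 15600 ≤ l) (hD0 : 0 ≤ Dc)
    (hD : Dc ≤ l ^ (K + 1)) (hy0 : 0 ≤ y) (hy : y ≤ l ^ 2) (hN0 : 0 ≤ N) (hN : 2 * (N + 1) ≤ l ^ 2)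
    (hW : Wc ≤ 1 + Dc * (2 * (4 * H ^ 2 * y ^ 64 * (9 * 216 * (2 * (N + 1))))))
    (hP : P ≤ (2 * H + 1) * Wc) : P ≤ H ^ 3 * l ^ (K + 133) := by
  have hl0 : 0 < l := by linarith
  have h3 : y ^ 64 ≤ (l ^ 2) ^ 64 := pow_le_pow_left₀ hy0 hy 64
  have q1 : 0 ≤ (l ^ 2) ^ 64 := pow_nonneg (sq_nonneg l) 64
  have q2 : 0 ≤ y ^ 64 := pow_nonneg hy0 64
  have q3 : 0 ≤ 4 * H ^ 2 := by positivity
  have q4 : 0 ≤ 9 * 216 * (2 * (N + 1)) := by positivity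
  have h4 : 4 * H ^ 2 * y ^ 64 * (9 * 216 * (2 * (N + 1))) ≤
      (4 * H ^ 2) * (l ^ 2) ^ 64 * (9 * 216 * l ^ 2) :=
    mul_le_mul (mul_le_mul_of_nonneg_left h3 q3)
      (mul_le_mul_of_nonneg_left hN (by norm_num)) q4 (mul_nonneg q3 q1)
  have h5 : Dc * (2 * (4 * H ^ 2 * y ^ 64 * (9 * 216 * (2 * (N + 1))))) ≤
      l ^ (K + 1) * (2 * ((4 * H ^ 2) * (l ^ 2) ^ 64 * (9 * 216 * l ^ 2))) :=
    mul_le_mul hD (mul_le_mul_of_nonneg_left h4 (by norm_num))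
      (mul_nonneg (by norm_num) (mul_nonneg (mul_nonneg q3 q2) q4)) (pow_nonneg hl0.le _)
  have h6 : l ^ (K + 1) * (2 * ((4 * H ^ 2) * (l ^ 2) ^ 64 * (9 * 216 * l ^ 2))) =
      15552 * (H ^ 2 * l ^ (K + 131)) := by
    have e1 : l ^ (K + 131) = l ^ (K + 1) * ((l ^ 2) ^ 64 * l ^ 2) := by
      rw [← pow_mul, ← pow_add, ← pow_add]
    rw [e1]; ring
  have h7 : (1 : ℝ) ≤ H ^ 2 * l ^ (K + 131) := by
    have h8 : (1 : ℝ) ≤ l ^ (K + 131) := one_le_pow₀ (by linarith)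
    have h9 : (1 : ℝ) ≤ H ^ 2 := one_le_pow₀ hH
    calc (1 : ℝ) = 1 * 1 := by ring
      _ ≤ _ := mul_le_mul h9 h8 (by norm_num) (by positivity)
  obtain ⟨G, hG⟩ : ∃ G : ℝ, G = H ^ 2 * l ^ (K + 131) := ⟨_, rfl⟩
  rw [← hG] at h6 h7
  rw [h6] at h5
  have h8 : Wc ≤ G * l := by
    calc Wc ≤ 1 + 15552 * G := by linarith
      _ ≤ G * 15600 := by linarith
      _ ≤ G * l := mul_le_mul_of_nonneg_left hl (by linarith)
  have hW0 : (2 * H + 1) * Wc ≤ (3 * H) * (G * l) := by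
    calc (2 * H + 1) * Wc ≤ (2 * H + 1) * (G * l) := mul_le_mul_of_nonneg_left h8 (by linarith)
      _ ≤ (3 * H) * (G * l) := by
        refine mul_le_mul_of_nonneg_right (by linarith) ?_
        have : 0 ≤ G := by linarith
        positivity
  calc P ≤ (3 * H) * (G * l) := hP.trans hW0
    _ = 3 * (H * (G * l)) := by ring
    _ ≤ l * (H * (G * l)) := by
        refine mul_le_mul_of_nonneg_right (by linarith) ?_
        have : 0 ≤ G := by linarith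
        positivity
    _ = H ^ 3 * l ^ (K + 133) := by
        rw [hG, show K + 133 = (K + 131) + 2 by ring, pow_add]
        ring

set_option maxHeartbeats 600000 in
/-- **Rank three.** -/
theorem main (A : ℕ) : ∃ C n₀ : ℕ, ∀ n : ℕ, n₀ ≤ n → ∀ H : ℕ, 1 ≤ H → H ≤ n ^ A →
    (H : ℝ) ^ 3 / 1728 ≤ (poss3 n H).card ∧
      ((poss3 n H).card : ℝ) ≤ (H : ℝ) ^ 3 * Real.log n ^ C := by
  classical
  obtain ⟨A', hA'⟩ : ∃ A' : ℕ, A' = 12 * A + 6 := ⟨_, rfl⟩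
  obtain ⟨K, hK⟩ : ∃ K : ℕ, K = 3 * (2 * A' + 1) + 1 := ⟨_, rfl⟩
  obtain ⟨E, hE⟩ : ∃ E : ℕ, E = 2 * (3 * A + A' + 1) := ⟨_, rfl⟩
  obtain ⟨x₀, hx₀⟩ := eventually_atTop.1 (((poss_le A').and (DD_card A' 1)).and
    ((log_large (15600 + 4 * E + 2 * A)).and (eventually_ge_atTop 2090)))
  refine ⟨K + 133, x₀ + 2, fun n hn H hH hHn => ⟨poss3_lower n H hH, ?_⟩⟩
  obtain ⟨x, rfl⟩ : ∃ x, n = x + 2 := ⟨n - 2, by omega⟩
  obtain ⟨⟨hposs, hDD⟩, hlx, hx⟩ := hx₀ x (by omega)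
  have hx1 : (1 : ℝ) ≤ x := by
    have : 1 ≤ x := by omega
    exact_mod_cast this
  set l : ℝ := Real.log ((x + 2 : ℕ) : ℝ) with hl
  have hlog : Real.log x ≤ l := by
    apply Real.log_le_log (by linarith)
    push_cast
    linarith
  have hlx0 : 0 ≤ Real.log (x : ℝ) := Real.log_nonneg hx1
  have hE0 : (0 : ℝ) ≤ E := Nat.cast_nonneg _
  have hA0 : (0 : ℝ) ≤ A := Nat.cast_nonneg _
  have hl1 : 15600 + 4 * (E : ℝ) + 2 * A ≤ l := hlx.trans hlog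
  have hl3 : 3 ≤ Real.log (x : ℝ) := by linarith
  have hl0 : 0 < l := by linarith
  have hHA : 54 * H ^ 6 ≤ (x + 1) ^ A' := by
    have h1 : x + 2 ≤ (x + 1) ^ 2 := by nlinarith
    have h2 : H ≤ (x + 1) ^ (2 * A) := by
      calc H ≤ (x + 2) ^ A := hHn
        _ ≤ ((x + 1) ^ 2) ^ A := Nat.pow_le_pow_left h1 A
        _ = _ := by rw [← pow_mul]
    have h3 : 54 ≤ (x + 1) ^ 6 := by
      calc 54 ≤ 2 ^ 6 := by norm_num
        _ ≤ _ := Nat.pow_le_pow_left (by omega) 6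
    calc 54 * H ^ 6 ≤ (x + 1) ^ 6 * ((x + 1) ^ (2 * A)) ^ 6 :=
          Nat.mul_le_mul h3 (Nat.pow_le_pow_left h2 6)
      _ = (x + 1) ^ A' := by rw [hA', ← pow_mul, ← pow_add]; ring_nf
  have h1 := hposs H hH hHA
  have hX1 : 1 ≤ 38 * H ^ 3 := by
    have : 1 ≤ H ^ 3 := Nat.one_le_pow _ _ hH
    omega
  have h2 := W_card (A := A') (Y := 4 * H ^ 2) (X := 38 * H ^ 3) hl3 hX1
  have hHr : (1 : ℝ) ≤ H := by exact_mod_cast hH
  have hHl : Real.log (H : ℝ) ≤ A * l := by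
    have : ((H : ℕ) : ℝ) ≤ ((x + 2 : ℕ) : ℝ) ^ A := by exact_mod_cast hHn
    calc Real.log (H : ℝ) ≤ Real.log (((x + 2 : ℕ) : ℝ) ^ A) := Real.log_le_log (by linarith) this
      _ = A * l := by rw [Real.log_pow]
  -- the discriminants
  have hDl : ((Dl x A').card : ℝ) ≤ l ^ (K + 1) := by
    have h3 : (Dl x A').card ≤ 1 + 4 * (DD x A' 1).card := by
      unfold Dl
      refine (card_insert_le _ _).trans ?_
      rw [add_comm]
      refine Nat.add_le_add_left (card_image_le.trans ?_) _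
      rw [card_product]
      refine Nat.mul_le_mul_right _ ?_
      decide
    have h4 : ((Dl x A').card : ℝ) ≤ 1 + 4 * (DD x A' 1).card := by exact_mod_cast h3
    have h5 : Real.log (x : ℝ) ^ K ≤ l ^ K := pow_le_pow_left₀ hlx0 hlog K
    have h6 : (1 : ℝ) ≤ l ^ K := one_le_pow₀ (by linarith)
    rw [← hK] at hDD
    calc ((Dl x A').card : ℝ) ≤ 1 + 4 * l ^ K := by linarith [hDD]
      _ ≤ l ^ K + 4 * l ^ K := by linarith
      _ = l ^ K * 5 := by ring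
      _ ≤ l ^ K * l := mul_le_mul_of_nonneg_left (by linarith) (by positivity)
      _ = l ^ (K + 1) := (pow_succ _ _).symm
  -- the logarithms
  have hY : 1 + Real.log ((4 * H ^ 2 : ℕ) : ℝ) ≤ l ^ 2 := by
    push_cast
    rw [Real.log_mul (by norm_num) (by positivity), Real.log_pow]
    have h3 : Real.log 4 ≤ 3 := by
      have := Real.log_le_sub_one_of_pos (show (0 : ℝ) < 4 by norm_num)
      linarith
    push_cast
    calc 1 + (Real.log 4 + 2 * Real.log (H : ℝ)) ≤ 4 + 2 * (A * l) := by linarith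
      _ ≤ 4 * l + 2 * A * l := by linarith
      _ = (4 + 2 * A) * l := by ring
      _ ≤ l * l := mul_le_mul_of_nonneg_right (by linarith) hl0.le
      _ = l ^ 2 := by ring
  have hY0 : 0 ≤ 1 + Real.log ((4 * H ^ 2 : ℕ) : ℝ) := by
    have := Real.log_natCast_nonneg (4 * H ^ 2)
    linarith
  have h3 : (38 * H ^ 3 * (1 + 54 * (x + 1) ^ A')) ^ 2 ≤ (x + 2) ^ E := by
    have h4 : H ^ 3 ≤ (x + 2) ^ (3 * A) := by
      calc H ^ 3 ≤ ((x + 2) ^ A) ^ 3 := Nat.pow_le_pow_left hHn 3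
        _ = _ := by rw [← pow_mul, mul_comm]
    have h5 : 1 + 54 * (x + 1) ^ A' ≤ 55 * (x + 2) ^ A' := by
      have h6 : 1 ≤ (x + 2) ^ A' := Nat.one_le_pow _ _ (by omega)
      have h7 : (x + 1) ^ A' ≤ (x + 2) ^ A' := Nat.pow_le_pow_left (by omega) _
      omega
    have h6 : 38 * H ^ 3 * (1 + 54 * (x + 1) ^ A') ≤ (x + 2) ^ (3 * A + A' + 1) := by
      calc 38 * H ^ 3 * (1 + 54 * (x + 1) ^ A') ≤
            (38 * (x + 2) ^ (3 * A)) * (55 * (x + 2) ^ A') :=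
            Nat.mul_le_mul (Nat.mul_le_mul_left _ h4) h5
        _ = 2090 * ((x + 2) ^ (3 * A) * (x + 2) ^ A') := by ring
        _ ≤ (x + 2) * ((x + 2) ^ (3 * A) * (x + 2) ^ A') :=
            Nat.mul_le_mul_right _ (by omega)
        _ = _ := by ring
    calc _ ≤ ((x + 2) ^ (3 * A + A' + 1)) ^ 2 := Nat.pow_le_pow_left h6 2
      _ = (x + 2) ^ E := by rw [← pow_mul, hE, mul_comm]
  have h4 : Nat.log 2 ((38 * H ^ 3 * (1 + 54 * (x + 1) ^ A')) ^ 2) ≤ Nat.log 2 ((x + 2) ^ E) :=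
    Nat.log_mono_right h3
  obtain ⟨N, hN⟩ : ∃ N : ℕ, N = Nat.log 2 ((38 * H ^ 3 * (1 + 54 * (x + 1) ^ A')) ^ 2) := ⟨_, rfl⟩
  rw [← hN] at h2 h4
  have hN1 : (N : ℝ) ≤ 2 * E * l := by
    have h5 : (N : ℝ) ≤ ((Nat.log 2 ((x + 2) ^ E) : ℕ) : ℝ) := by exact_mod_cast h4
    refine h5.trans ((Real.natLog_le_logb _ _).trans ?_)
    push_cast
    rw [Real.logb, Real.log_pow]
    have h6 : (1 / 2 : ℝ) ≤ Real.log 2 := by
      have := Real.log_two_gt_d9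
      linarith
    rw [div_le_iff₀ (by linarith)]
    have h7 : Real.log ((x : ℝ) + 2) = l := by rw [hl]; push_cast; rfl
    rw [h7]
    have h8 : 0 ≤ (E : ℝ) * l := by positivity
    calc (E : ℝ) * l = 2 * (E * l) * (1 / 2) := by ring
      _ ≤ 2 * (E * l) * Real.log 2 := mul_le_mul_of_nonneg_left h6 (by positivity)
      _ = 2 * E * l * Real.log 2 := by ring
  have hL : 2 * ((N : ℝ) + 1) ≤ l ^ 2 := by
    calc 2 * ((N : ℝ) + 1) ≤ 4 * E * l + 2 := by linarith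
      _ ≤ 4 * E * l + 2 * l := by linarith
      _ = (4 * E + 2) * l := by ring
      _ ≤ l * l := mul_le_mul_of_nonneg_right (by linarith) hl0.le
      _ = l ^ 2 := by ring
  obtain ⟨y, hy⟩ : ∃ y : ℝ, y = 1 + Real.log ((4 * H ^ 2 : ℕ) : ℝ) := ⟨_, rfl⟩
  rw [← hy] at h2 hY hY0
  obtain ⟨Dc, hDc⟩ : ∃ Dc : ℝ, Dc = (Dl x A').card := ⟨_, rfl⟩
  obtain ⟨Wc, hWc⟩ : ∃ Wc : ℝ, Wc = (W x A' (4 * H ^ 2) (38 * H ^ 3)).card := ⟨_, rfl⟩
  have hDc0 : 0 ≤ Dc := by rw [hDc]; positivity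
  have hWc0 : 0 ≤ Wc := by rw [hWc]; positivity
  have h5 : ((poss3 (x + 2) H).card : ℝ) ≤
      (2 * H + 1) * (W x A' (4 * H ^ 2) (38 * H ^ 3)).card := by exact_mod_cast h1
  rw [← hDc] at h2 hDl
  rw [← hWc] at h2 h5
  have h6 : ((4 * H ^ 2 : ℕ) : ℝ) = 4 * (H : ℝ) ^ 2 := by push_cast; ring
  rw [h6] at h2
  exact final_ineq (K := K) hHr (by linarith) hDc0 hDl hY0 hY (Nat.cast_nonneg _) hL h2 h5

end Pool.Agent.R503.CT
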