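import Pool.Agent.R503.CT.Main

/-!
# The number of possible Chern classes of bundles of rank three: lower bound
-/

set_option autoImplicit false

open Finset Filter Topology

namespace Pool.Agent.R503.CT

open Pool.Agent.R920.CH Polynomial Pool.Agent.R503.PS

lemma rr_split3 (n : ℕ) (a b c : ℤ) :
    RiemannRoch n (poly3 (a + b + c) (a * b + a * c + b * c) (a * b * c)) := by
  intro f hf _
  have h1 : poly3 (a + b + c) (a * b + a * c + b * c) (a * b * c) =
      (X - C a) * (X - C b) * (X - C c) := by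
    unfold poly3
    simp only [C_add, C_mul]
    ring
  have h2 : rootsOf (poly3 (a + b + c) (a * b + a * c + b * c) (a * b * c)) =
      {(a : ℂ)} + {(b : ℂ)} + {(c : ℂ)} := by
    have hne : ∀ z : ℂ, (X - C z : ℂ[X]) ≠ 0 := fun z => X_sub_C_ne_zero _
    have h3 : (poly3 (a + b + c) (a * b + a * c + b * c) (a * b * c)).map (Int.castRingHom ℂ) =
        (X - C (a : ℂ)) * (X - C (b : ℂ)) * (X - C (c : ℂ)) := by
      rw [h1]
      simp [Polynomial.map_mul]
    rw [rootsOf, h3, roots_mul (mul_ne_zero (mul_ne_zero (hne _) (hne _)) (hne _)),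
      roots_mul (mul_ne_zero (hne _) (hne _)), roots_X_sub_C, roots_X_sub_C, roots_X_sub_C]
  obtain ⟨z, hz⟩ := hf a
  obtain ⟨w, hw⟩ := hf b
  obtain ⟨v, hv⟩ := hf c
  refine ⟨z + w + v, ?_⟩
  rw [h2, Multiset.map_add, Multiset.sum_add, Multiset.map_add, Multiset.sum_add,
    Multiset.map_singleton, Multiset.map_singleton, Multiset.map_singleton,
    Multiset.sum_singleton, Multiset.sum_singleton, Multiset.sum_singleton]
  have h3 : ∀ m : ℤ, aeval (m : ℂ) f = ((f.eval (m : ℚ) : ℚ) : ℂ) := by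
    intro m
    have := Polynomial.aeval_algebraMap_apply ℂ (m : ℚ) f
    rw [Polynomial.coe_aeval_eq_eval] at this
    simpa using this
  rw [h3, h3, h3, hz, hw, hv]
  push_cast
  rfl

/-- the split triples -/
lemma poss3_lower (n H : ℕ) (hH : 1 ≤ H) : (H : ℝ) ^ 3 / 1728 ≤ (poss3 n H).card := by
  classical
  set m : ℕ := H / 6 with hm
  have hmH : 6 * m ≤ H := by omega
  have hHm : H < 6 * (m + 1) := by omega
  have hsub : (range m ×ˢ (Ico m (2 * m) ×ˢ Ico (2 * m) (3 * m))).image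
      (fun t : ℕ × ℕ × ℕ => (((t.1 : ℤ) + t.2.1 + t.2.2,
        (t.1 : ℤ) * t.2.1 + t.1 * t.2.2 + t.2.1 * t.2.2, (t.1 : ℤ) * t.2.1 * t.2.2) : ℤ × ℤ × ℤ)) ⊆
      poss3 n H := by
    intro c hc
    rw [mem_image] at hc
    obtain ⟨⟨a, b, c⟩, hab, rfl⟩ := hc
    rw [mem_product, mem_product, mem_range, mem_Ico, mem_Ico] at hab
    obtain ⟨h1, ⟨h2, h3⟩, h4, h5⟩ := hab
    simp only at h1 h2 h3 h4 h5
    unfold poss3
    rw [mem_filter, mem_product, mem_product, mem_Icc, mem_Icc, mem_Icc]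
    simp only
    have ha : a ≤ H := by omega
    have hb : 2 * b ≤ H := by omega
    have hc : 2 * c ≤ H := by omega
    have hs : a + b + c ≤ H := by omega
    have e2 : 3 * (a * b + a * c + b * c) ≤ H ^ 2 := by
      calc 3 * (a * b + a * c + b * c) ≤ (a + b + c) ^ 2 := by
            zify
            nlinarith [sq_nonneg ((a : ℤ) - b), sq_nonneg ((a : ℤ) - c), sq_nonneg ((b : ℤ) - c)]
        _ ≤ H ^ 2 := Nat.pow_le_pow_left hs 2
    have e3 : a * b * c ≤ H ^ 3 := by
      calc a * b * c ≤ H * H * H := Nat.mul_le_mul (Nat.mul_le_mul ha (by omega)) (by omega)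
        _ = H ^ 3 := by ring
    have hH0 : (0 : ℤ) ≤ (H : ℤ) ^ 2 := by positivity
    have hH1 : (0 : ℤ) ≤ (H : ℤ) ^ 3 := by positivity
    have f1 : (0 : ℤ) ≤ (a : ℤ) + b + c := by positivity
    have f2 : (0 : ℤ) ≤ (a : ℤ) * b + a * c + b * c := by positivity
    have f3 : (0 : ℤ) ≤ (a : ℤ) * b * c := by positivity
    have g1 : (a : ℤ) + b + c ≤ H := by exact_mod_cast hs
    have g2 : (a : ℤ) * b + a * c + b * c ≤ (H : ℤ) ^ 2 := by
      have : a * b + a * c + b * c ≤ H ^ 2 := by omega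
      exact_mod_cast this
    have g3 : (a : ℤ) * b * c ≤ (H : ℤ) ^ 3 := by exact_mod_cast e3
    have hHz : (0 : ℤ) ≤ H := Int.natCast_nonneg _
    exact ⟨⟨⟨by linarith, g1⟩, ⟨by linarith, g2⟩, by linarith, g3⟩, rr_split3 n a b c⟩
  have hinj : Set.InjOn (fun t : ℕ × ℕ × ℕ => (((t.1 : ℤ) + t.2.1 + t.2.2,
        (t.1 : ℤ) * t.2.1 + t.1 * t.2.2 + t.2.1 * t.2.2, (t.1 : ℤ) * t.2.1 * t.2.2) : ℤ × ℤ × ℤ))
      (range m ×ˢ (Ico m (2 * m) ×ˢ Ico (2 * m) (3 * m)) : Finset (ℕ × ℕ × ℕ)) := by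
    rintro ⟨a, b, c⟩ h ⟨a', b', c'⟩ h' heq
    rw [mem_coe, mem_product, mem_product, mem_range, mem_Ico, mem_Ico] at h h'
    simp only [Prod.mk.injEq] at heq h h'
    obtain ⟨e1, e2, e3⟩ := heq
    have key : ∀ t : ℤ, (t - a) * (t - b) * (t - c) = (t - a') * (t - b') * (t - c') := by
      intro t
      linear_combination (-(t ^ 2)) * e1 + t * e2 - e3
    have k1 := key a
    have k2 := key b
    have k3 := key c
    rw [sub_self, zero_mul, zero_mul] at k1
    rw [sub_self, mul_zero, zero_mul] at k2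
    rw [sub_self, mul_zero] at k3
    have r1 : a = a' := by
      rcases mul_eq_zero.1 k1.symm with h1 | h1
      · rcases mul_eq_zero.1 h1 with h2 | h2 <;> omega
      · omega
    have r2 : b = b' := by
      rcases mul_eq_zero.1 k2.symm with h1 | h1
      · rcases mul_eq_zero.1 h1 with h2 | h2 <;> omega
      · omega
    have r3 : c = c' := by
      rcases mul_eq_zero.1 k3.symm with h1 | h1
      · rcases mul_eq_zero.1 h1 with h2 | h2 <;> omega
      · omega
    rw [r1, r2, r3]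
  have h1 := card_le_card hsub
  rw [card_image_of_injOn hinj, card_product, card_product, Nat.card_Ico, Nat.card_Ico,
    card_range] at h1
  have h2 : 2 * m - m = m := by omega
  have h2' : 3 * m - 2 * m = m := by omega
  rw [h2, h2'] at h1
  have hzero : 1 ≤ (poss3 n H).card := by
    apply card_pos.2
    refine ⟨(0, 0, 0), ?_⟩
    unfold poss3
    rw [mem_filter, mem_product, mem_product, mem_Icc, mem_Icc, mem_Icc]
    have hH0 : (0 : ℤ) ≤ (H : ℤ) ^ 2 := by positivity
    have hH1 : (0 : ℤ) ≤ (H : ℤ) ^ 3 := by positivity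
    have hHz : (0 : ℤ) ≤ H := Int.natCast_nonneg _
    refine ⟨⟨⟨by simpa using hHz, hHz⟩, ⟨by simpa using hH0, hH0⟩, by simpa using hH1, hH1⟩, ?_⟩
    have := rr_split3 n 0 0 0
    simpa using this
  rw [div_le_iff₀ (by norm_num)]
  have h3 : H ^ 3 ≤ 1728 * (poss3 n H).card := by
    rcases Nat.eq_zero_or_pos m with h | h
    · have : H ≤ 5 := by omega
      calc H ^ 3 ≤ 5 ^ 3 := Nat.pow_le_pow_left this 3
        _ ≤ 1728 * 1 := by norm_num
        _ ≤ _ := Nat.mul_le_mul_left _ hzero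
    · have : H ≤ 12 * m := by omega
      calc H ^ 3 ≤ (12 * m) ^ 3 := Nat.pow_le_pow_left this 3
        _ = 1728 * (m * (m * m)) := by ring
        _ ≤ _ := Nat.mul_le_mul_left _ h1
  have h4 : ((H ^ 3 : ℕ) : ℝ) ≤ ((1728 * (poss3 n H).card : ℕ) : ℝ) := by exact_mod_cast h3
  push_cast at h4
  linarith

end Pool.Agent.R503.CT
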