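import Pool.Agent.R503.CT.Cubic
import Pool.Agent.H398R2.BA1

/-!
# The number of possible Chern classes of bundles of rank three
-/

set_option autoImplicit false

open Finset Filter Topology

namespace Pool.Agent.R503.CT

open Pool.Agent.R920.CH Polynomial Pool.Agent.R503.PS

/-! ### The possible pairs `(y, w)` -/

/-- the numbers `-27 u d` -/
noncomputable def Dl (x A : ℕ) : Finset ℤ :=
  insert (-27) ((({1, -1, 2, -2} : Finset ℤ) ×ˢ DD x A 1).image fun t => -27 * t.1 * (t.2 : ℤ))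

/-- the pairs `(y, w)` -/
noncomputable def W (x A Y X : ℕ) : Finset (ℤ × ℤ) :=
  insert (0, 0) ((Dl x A ×ˢ (Icc 1 Y ×ˢ ({1, -1} : Finset ℤ))).biUnion fun t =>
    (Sol t.1 (4 * (t.2.2 * (t.2.1 : ℤ)) ^ 3) X).image fun s => (t.2.2 * (t.2.1 : ℤ), s.1))

lemma Dl_props {x A : ℕ} (hx : 3 ≤ Real.log x) {Δ : ℤ} (h : Δ ∈ Dl x A) :
    (Δ < -1 ∨ 0 < Δ) ∧ ¬ IsSquare Δ ∧ (∀ h : ℕ, (h : ℤ) ^ 2 ∣ 4 * Δ → h ≤ 216) ∧
      Δ.natAbs ≤ 54 * (x + 1) ^ A := by
  classical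
  unfold Dl at h
  rw [mem_insert, mem_image] at h
  rcases h with rfl | ⟨⟨u, d⟩, hud, rfl⟩
  · refine ⟨Or.inl (by norm_num), ?_, ?_, ?_⟩
    · rintro ⟨r, hr⟩
      nlinarith [mul_self_nonneg r]
    · intro h hh
      exact content_le (u := 1) (Or.inl rfl) squarefree_one h (by simpa using hh)
    · have : (1 : ℕ) ≤ (x + 1) ^ A := Nat.one_le_pow _ _ (by omega)
      have e : (-27 : ℤ).natAbs = 27 := rfl
      rw [e]
      omega
  · rw [mem_product] at hud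
    obtain ⟨hu, hd⟩ := hud
    have hu' : u = 1 ∨ u = -1 ∨ u = 2 ∨ u = -2 := by simpa using hu
    unfold DD at hd
    rw [mem_filter, mem_range] at hd
    obtain ⟨hd1, hodd, hsq, _, hl⟩ := hd
    simp only at hd1 hodd hsq hl
    have hd3 : 3 < d := by
      have : (3 : ℝ) < d := by
        rw [pow_one] at hl
        linarith
      exact_mod_cast this
    refine ⟨?_, not_square hu' hsq hodd hd3, fun h hh => content_le hu' hsq h hh, ?_⟩
    · have : (3 : ℤ) < d := by exact_mod_cast hd3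
      simp only
      rcases hu' with rfl | rfl | rfl | rfl
      · left; linarith
      · right; linarith
      · left; linarith
      · right; linarith
    · simp only
      rw [Int.natAbs_mul, Int.natAbs_mul, Int.natAbs_natCast]
      have e : (-27 : ℤ).natAbs = 27 := rfl
      have hu1 : u.natAbs ≤ 2 := by
        rcases hu' with rfl | rfl | rfl | rfl <;> simp
      have hd2 : d ≤ (x + 1) ^ A := by omega
      rw [e]
      calc 27 * u.natAbs * d ≤ 27 * 2 * (x + 1) ^ A :=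
            Nat.mul_le_mul (Nat.mul_le_mul_left _ hu1) hd2
        _ = _ := by ring

lemma tau_four_cube (j : ℕ) : (4 * j ^ 3).divisors.card ≤ 3 * j.divisors.card ^ 3 := by
  have hm : ∀ m n : ℕ, (m * n).divisors.card ≤ m.divisors.card * n.divisors.card := by
    intro m n
    rw [Nat.divisors_mul]
    exact card_mul_le
  have h4 : (4 : ℕ).divisors.card = 3 := by decide
  calc (4 * j ^ 3).divisors.card ≤ (4 : ℕ).divisors.card * (j ^ 3).divisors.card := hm _ _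
    _ ≤ 3 * (j.divisors.card ^ 3) := by
        rw [h4]
        refine Nat.mul_le_mul_left _ ?_
        calc (j ^ 3).divisors.card = (j * (j * j)).divisors.card := by ring_nf
          _ ≤ j.divisors.card * (j * j).divisors.card := hm _ _
          _ ≤ j.divisors.card * (j.divisors.card * j.divisors.card) :=
              Nat.mul_le_mul_left _ (hm _ _)
          _ = _ := by ring

/-- the number of the pairs `(y, w)` -/
lemma W_card {x A Y X : ℕ} (hx : 3 ≤ Real.log x) (hX : 1 ≤ X) :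
    ((W x A Y X).card : ℝ) ≤ 1 + (Dl x A).card * (2 * (Y * (1 + Real.log Y) ^ 64 * (9 * 216 *
      (2 * (Nat.log 2 ((X * (1 + 54 * (x + 1) ^ A)) ^ 2) + 1))))) := by
  classical
  set L : ℕ := 2 * (Nat.log 2 ((X * (1 + 54 * (x + 1) ^ A)) ^ 2) + 1) with hL
  have h1 : (W x A Y X).card ≤ 1 + ∑ t ∈ Dl x A ×ˢ (Icc 1 Y ×ˢ ({1, -1} : Finset ℤ)),
      9 * 216 * L * t.2.1.divisors.card ^ 6 := by
    unfold W
    refine (card_insert_le _ _).trans ?_
    rw [add_comm]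
    refine Nat.add_le_add_left (card_biUnion_le.trans (sum_le_sum fun t ht => ?_)) _
    refine card_image_le.trans ?_
    obtain ⟨Δ, j, e⟩ := t
    rw [mem_product, mem_product, mem_Icc] at ht
    obtain ⟨hΔ, ⟨hj1, hj2⟩, he⟩ := ht
    simp only at hΔ hj1 hj2 he ⊢
    have he' : e = 1 ∨ e = -1 := by simpa using he
    obtain ⟨a1, a2, a3, a4⟩ := Dl_props hx hΔ
    have hk : (4 * (e * (j : ℤ)) ^ 3).natAbs = 4 * j ^ 3 := by
      rcases he' with rfl | rfl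
      · rw [one_mul, Int.natAbs_mul, Int.natAbs_pow, Int.natAbs_natCast]; rfl
      · rw [Int.natAbs_mul, Int.natAbs_pow, Int.natAbs_mul, Int.natAbs_natCast]; norm_num
    have hk0 : (4 * (e * (j : ℤ)) ^ 3) ≠ 0 := by
      intro h0
      rw [h0, Int.natAbs_zero] at hk
      have : 0 < 4 * j ^ 3 := by positivity
      omega
    refine (sol_card a1 a2 hk0 hX 216 a3).trans ?_
    rw [hk]
    have h2 := tau_four_cube j
    have h3 : 2 * (Nat.log 2 ((X * (1 + Δ.natAbs)) ^ 2) + 1) ≤ L := by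
      rw [hL]
      refine Nat.mul_le_mul_left _ (Nat.add_le_add_right (Nat.log_mono_right ?_) _)
      exact Nat.pow_le_pow_left (Nat.mul_le_mul_left _ (Nat.add_le_add_left a4 _)) _
    calc (4 * j ^ 3).divisors.card * ((4 * j ^ 3).divisors.card * 216 *
          (2 * (Nat.log 2 ((X * (1 + Δ.natAbs)) ^ 2) + 1)))
        ≤ (3 * j.divisors.card ^ 3) * ((3 * j.divisors.card ^ 3) * 216 * L) :=
          Nat.mul_le_mul h2 (Nat.mul_le_mul (Nat.mul_le_mul_right _ h2) h3)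
      _ = 9 * 216 * L * j.divisors.card ^ 6 := by ring
  have h2 : ∑ t ∈ Dl x A ×ˢ (Icc 1 Y ×ˢ ({1, -1} : Finset ℤ)),
      9 * 216 * L * t.2.1.divisors.card ^ 6 =
      (Dl x A).card * (2 * (9 * 216 * L * ∑ j ∈ Icc 1 Y, j.divisors.card ^ 6)) := by
    rw [sum_product]
    simp only
    rw [sum_const, smul_eq_mul, sum_product]
    simp only
    congr 1
    have h3 : ∀ j ∈ Icc 1 Y, ∑ _e ∈ ({1, -1} : Finset ℤ), 9 * 216 * L * j.divisors.card ^ 6 =
        2 * (9 * 216 * L * j.divisors.card ^ 6) := by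
      intro j _
      rw [sum_const, smul_eq_mul]
      rfl
    rw [sum_congr rfl h3, ← mul_sum, ← mul_sum]
  rw [h2] at h1
  have h3 : (∑ j ∈ Icc 1 Y, (j.divisors.card : ℝ) ^ 6) ≤ Y * (1 + Real.log Y) ^ 64 := by
    have h4 := Pool.Agent.H398R2.BV.sum_card_pow_div 6 Y
    have h5 : ∑ j ∈ Icc 1 Y, (j.divisors.card : ℝ) ^ 6 ≤
        ∑ j ∈ Icc 1 Y, Y * ((j.divisors.card : ℝ) ^ 6 / j) := by
      refine sum_le_sum fun j hj => ?_
      rw [mem_Icc] at hj
      have hj0 : (0 : ℝ) < j := by exact_mod_cast hj.1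
      rw [mul_div_assoc', le_div_iff₀ hj0, mul_comm]
      exact mul_le_mul_of_nonneg_right (by exact_mod_cast hj.2) (by positivity)
    rw [← mul_sum] at h5
    refine h5.trans (mul_le_mul_of_nonneg_left ?_ (Nat.cast_nonneg _))
    have : (2 : ℕ) ^ 6 = 64 := by norm_num
    rw [this] at h4
    exact h4
  have h4 : ((W x A Y X).card : ℝ) ≤ 1 + (Dl x A).card * (2 * (9 * 216 * L *
      ∑ j ∈ Icc 1 Y, (j.divisors.card : ℝ) ^ 6)) := by exact_mod_cast h1
  refine h4.trans ?_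
  have h5 : (9 * 216 * (L : ℝ)) * ∑ j ∈ Icc 1 Y, (j.divisors.card : ℝ) ^ 6 ≤
      (9 * 216 * L) * (Y * (1 + Real.log Y) ^ 64) := mul_le_mul_of_nonneg_left h3 (by positivity)
  have h6 : (L : ℝ) = 2 * ((Nat.log 2 ((X * (1 + 54 * (x + 1) ^ A)) ^ 2) : ℕ) + 1) := by
    rw [hL]; push_cast; rfl
  rw [← h6]
  have h7 : (0 : ℝ) ≤ (Dl x A).card := Nat.cast_nonneg _
  nlinarith [mul_le_mul_of_nonneg_left h5 h7]

/-! ### The possible triples -/

open Classical in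
/-- the triples satisfying the Riemann-Roch conditions -/
noncomputable def poss3 (n H : ℕ) : Finset (ℤ × ℤ × ℤ) :=
  (Icc (-(H : ℤ)) H ×ˢ (Icc (-(H : ℤ) ^ 2) ((H : ℤ) ^ 2) ×ˢ
    Icc (-(H : ℤ) ^ 3) ((H : ℤ) ^ 3))).filter fun c => RiemannRoch n (poly3 c.1 c.2.1 c.2.2)

lemma mem_poss3 {n H : ℕ} {c : ℤ × ℤ × ℤ} (h : c ∈ poss3 n H) :
    |c.1| ≤ H ∧ |c.2.1| ≤ (H : ℤ) ^ 2 ∧ |c.2.2| ≤ (H : ℤ) ^ 3 ∧
      RiemannRoch n (poly3 c.1 c.2.1 c.2.2) := by
  classical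
  unfold poss3 at h
  rw [mem_filter, mem_product, mem_product, mem_Icc, mem_Icc, mem_Icc] at h
  obtain ⟨⟨⟨a1, a2⟩, ⟨b1, b2⟩, c1, c2⟩, h⟩ := h
  refine ⟨abs_le.2 ⟨a1, a2⟩, abs_le.2 ⟨by linarith, b2⟩, abs_le.2 ⟨by linarith, c2⟩, h⟩

lemma bounds {H : ℕ} {a b c : ℤ} (ha : |a| ≤ H) (hb : |b| ≤ (H : ℤ) ^ 2) (hc : |c| ≤ (H : ℤ) ^ 3) :
    |a ^ 2 - 3 * b| ≤ 4 * (H : ℤ) ^ 2 ∧ |2 * a ^ 3 - 9 * a * b + 27 * c| ≤ 38 * (H : ℤ) ^ 3 ∧
      |disc3 a b c| ≤ 54 * (H : ℤ) ^ 6 := by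
  have hH : (0 : ℤ) ≤ H := Int.natCast_nonneg _
  have a2 : |a ^ 2| ≤ (H : ℤ) ^ 2 := by
    rw [abs_pow]; exact pow_le_pow_left₀ (abs_nonneg _) ha 2
  have a3 : |a ^ 3| ≤ (H : ℤ) ^ 3 := by
    rw [abs_pow]; exact pow_le_pow_left₀ (abs_nonneg _) ha 3
  have b2 : |b ^ 2| ≤ (H : ℤ) ^ 4 := by
    rw [abs_pow]
    calc |b| ^ 2 ≤ ((H : ℤ) ^ 2) ^ 2 := pow_le_pow_left₀ (abs_nonneg _) hb 2
      _ = _ := by ring
  have b3 : |b ^ 3| ≤ (H : ℤ) ^ 6 := by
    rw [abs_pow]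
    calc |b| ^ 3 ≤ ((H : ℤ) ^ 2) ^ 3 := pow_le_pow_left₀ (abs_nonneg _) hb 3
      _ = _ := by ring
  have c2 : |c ^ 2| ≤ (H : ℤ) ^ 6 := by
    rw [abs_pow]
    calc |c| ^ 2 ≤ ((H : ℤ) ^ 3) ^ 2 := pow_le_pow_left₀ (abs_nonneg _) hc 2
      _ = _ := by ring
  have mm : ∀ (s t S T : ℤ), |s| ≤ S → |t| ≤ T → |s * t| ≤ S * T := by
    intro s t S T h1 h2
    rw [abs_mul]
    exact mul_le_mul h1 h2 (abs_nonneg _) ((abs_nonneg _).trans h1)
  have ab := mm a b _ _ ha hb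
  have t1 := mm (a ^ 2) (b ^ 2) _ _ a2 b2
  have t2 := mm (a ^ 3) c _ _ a3 hc
  have t3 := mm (a * b) c _ _ ab hc
  rw [abs_le] at a2 a3 b2 b3 c2 ab t1 t2 t3 hb hc ⊢
  have e1 : (H : ℤ) ^ 2 * (H : ℤ) ^ 4 = (H : ℤ) ^ 6 := by ring
  have e2 : (H : ℤ) ^ 3 * (H : ℤ) ^ 3 = (H : ℤ) ^ 6 := by ring
  have e3 : (H : ℤ) * (H : ℤ) ^ 2 * (H : ℤ) ^ 3 = (H : ℤ) ^ 6 := by ring
  have e4 : (H : ℤ) * (H : ℤ) ^ 2 = (H : ℤ) ^ 3 := by ring
  rw [e1] at t1
  rw [e2] at t2
  rw [e3] at t3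
  rw [e4] at ab
  refine ⟨⟨by linarith, by linarith⟩, ?_, ?_⟩
  · rw [abs_le]
    constructor
    · have : 2 * a ^ 3 - 9 * a * b + 27 * c = 2 * a ^ 3 - 9 * (a * b) + 27 * c := by ring
      rw [this]; linarith
    · have : 2 * a ^ 3 - 9 * a * b + 27 * c = 2 * a ^ 3 - 9 * (a * b) + 27 * c := by ring
      rw [this]; linarith
  · have : disc3 a b c = a ^ 2 * b ^ 2 - 4 * b ^ 3 - 4 * (a ^ 3 * c) + 18 * (a * b * c) -
        27 * c ^ 2 := by
      unfold disc3; ring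
    rw [this, abs_le]
    constructor <;> linarith

/-- the pairs `(y, w)` of the possible triples -/
lemma mem_W (A : ℕ) : ∀ᶠ x : ℕ in atTop, ∀ H : ℕ, 1 ≤ H → 54 * H ^ 6 ≤ (x + 1) ^ A →
    ∀ c ∈ poss3 (x + 2) H, (c.1 ^ 2 - 3 * c.2.1, 2 * c.1 ^ 3 - 9 * c.1 * c.2.1 + 27 * c.2.2) ∈
      W x A (4 * H ^ 2) (38 * H ^ 3) := by
  classical
  filter_upwards [struct3 A 1, eventually_ge_atTop 8, log_large 3] with x hst hx8 hl3 H hH hHA c hc
  obtain ⟨h1, h2, h3, hRR⟩ := mem_poss3 hc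
  obtain ⟨c₁, c₂, c₃⟩ := c
  simp only at h1 h2 h3 hRR ⊢
  obtain ⟨hy, hw, hD⟩ := bounds h1 h2 h3
  have hid := identity c₁ c₂ c₃
  set y : ℤ := c₁ ^ 2 - 3 * c₂ with hydef
  set w : ℤ := 2 * c₁ ^ 3 - 9 * c₁ * c₂ + 27 * c₃ with hwdef
  set D : ℤ := disc3 c₁ c₂ c₃ with hDdef
  -- `D = u d f²` with `-27 u d ∈ Dl`
  have key : ∃ (Δ f : ℤ), Δ ∈ Dl x A ∧ 27 * D = -Δ * f ^ 2 ∧ f ^ 2 ≤ |D| := by
    by_cases hsq : IsSquare D
    · obtain ⟨f, hf⟩ := hsq
      refine ⟨-27, f, ?_, ?_, ?_⟩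
      · unfold Dl
        exact mem_insert_self _ _
      · rw [hf]; ring
      · rw [hf, abs_mul_self]
        nlinarith
    · have hDn : D.natAbs ≤ (x + 1) ^ A := by
        have : (D.natAbs : ℤ) ≤ (54 * H ^ 6 : ℕ) := by
          rw [Int.natCast_natAbs]
          push_cast
          exact hD
        have h5 : D.natAbs ≤ 54 * H ^ 6 := by exact_mod_cast this
        omega
      obtain ⟨u, d, f, hu, hDe, hodd, hsqf, hf0, hfew, hld⟩ := hst D hsq hDn (by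
        intro p hp hp1 hp2
        exact square_mod3 hRR p hp (by omega) (by omega))
      have hf1 : (1 : ℤ) ≤ f := by exact_mod_cast hf0
      have hd0 : 0 < d := Nat.pos_of_ne_zero hsqf.ne_zero
      have hua : 1 ≤ u.natAbs := by
        rcases hu with rfl | rfl | rfl | rfl <;> decide
      have habs : D.natAbs = u.natAbs * d * f ^ 2 := by
        rw [hDe, Int.natAbs_mul, Int.natAbs_mul, Int.natAbs_pow, Int.natAbs_natCast,
          Int.natAbs_natCast]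
      refine ⟨-27 * u * d, f, ?_, ?_, ?_⟩
      · unfold Dl
        rw [mem_insert, mem_image]
        right
        refine ⟨(u, d), ?_, rfl⟩
        rw [mem_product]
        refine ⟨by simpa using hu, ?_⟩
        unfold DD
        rw [mem_filter, mem_range]
        refine ⟨?_, hodd, hsqf, hfew, hld⟩
        have h5 : d ≤ D.natAbs := by
          rw [habs]
          calc d = 1 * d * 1 := by ring
            _ ≤ u.natAbs * d * f ^ 2 :=
              Nat.mul_le_mul (Nat.mul_le_mul_right _ hua) (Nat.one_le_pow _ _ hf0)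
        exact Nat.lt_succ_of_le (h5.trans hDn)
      · rw [hDe]; ring
      · have h5 : f ^ 2 ≤ D.natAbs := by
          rw [habs]
          calc f ^ 2 = 1 * 1 * f ^ 2 := by ring
            _ ≤ u.natAbs * d * f ^ 2 := Nat.mul_le_mul_right _ (Nat.mul_le_mul hua hd0)
        have h6 : ((f ^ 2 : ℕ) : ℤ) ≤ (D.natAbs : ℕ) := by exact_mod_cast h5
        rw [Int.natCast_natAbs] at h6
        push_cast at h6
        exact h6
  obtain ⟨Δ, f, hΔ, hDf, hfD⟩ := key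
  have heq : w ^ 2 - Δ * f ^ 2 = 4 * y ^ 3 := by linarith
  unfold W
  rw [mem_insert]
  by_cases hy0 : y = 0
  · left
    obtain ⟨_, hns, _, _⟩ := Dl_props hl3 hΔ
    rw [hy0] at heq
    have h5 : w ^ 2 = Δ * f ^ 2 := by linarith
    have hf0 : f = 0 := by
      by_contra hf0
      apply hns
      have h6 : f ^ 2 ∣ w ^ 2 := ⟨Δ, by rw [h5]; ring⟩
      have h7 : f ∣ w := (Int.pow_dvd_pow_iff two_ne_zero).1 h6
      obtain ⟨r, hr⟩ := h7
      refine ⟨r, ?_⟩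
      rw [hr] at h5
      have h8 : f ^ 2 * (r * r) = f ^ 2 * Δ := by linarith
      exact (mul_left_cancel₀ (pow_ne_zero 2 hf0) h8).symm
    rw [hf0] at h5
    have hw0 : w = 0 := by
      have : w ^ 2 = 0 := by rw [h5]; ring
      exact pow_eq_zero_iff two_ne_zero |>.1 this
    rw [hy0, hw0]
  · right
    rw [mem_biUnion]
    have hyn : 1 ≤ y.natAbs := Int.natAbs_pos.2 hy0
    have hsg : y = y.sign * (y.natAbs : ℤ) := (Int.sign_mul_natAbs y).symm
    refine ⟨(Δ, y.natAbs, y.sign), ?_, ?_⟩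
    · rw [mem_product, mem_product, mem_Icc]
      refine ⟨hΔ, ⟨hyn, ?_⟩, ?_⟩
      · have : (y.natAbs : ℤ) ≤ (4 * H ^ 2 : ℕ) := by
          rw [Int.natCast_natAbs]
          push_cast
          exact hy
        exact_mod_cast this
      · rcases lt_or_gt_of_ne hy0 with h | h
        · simp [Int.sign_eq_neg_one_of_neg h]
        · simp [Int.sign_eq_one_of_pos h]
    · rw [mem_image]
      refine ⟨(w, f), ?_, ?_⟩
      · simp only
        rw [← hsg, mem_Sol]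
        refine ⟨?_, ?_, heq⟩
        · push_cast
          exact hw
        · push_cast
          have h5 : f ^ 2 ≤ 54 * (H : ℤ) ^ 6 := hfD.trans hD
          have h6 : (0 : ℤ) ≤ 38 * (H : ℤ) ^ 3 := by positivity
          apply abs_le_of_sq_le_sq _ h6
          have h7 : (0 : ℤ) ≤ (H : ℤ) ^ 6 := by positivity
          calc f ^ 2 ≤ 54 * (H : ℤ) ^ 6 := h5
            _ ≤ 1444 * (H : ℤ) ^ 6 := by linarith
            _ = _ := by ring
      · simp only
        rw [← hsg]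

/-- the number of the possible triples is at most the number of the `(c₁, y, w)` -/
lemma poss_le (A : ℕ) : ∀ᶠ x : ℕ in atTop, ∀ H : ℕ, 1 ≤ H → 54 * H ^ 6 ≤ (x + 1) ^ A →
    (poss3 (x + 2) H).card ≤ (2 * H + 1) * (W x A (4 * H ^ 2) (38 * H ^ 3)).card := by
  filter_upwards [mem_W A] with x hx H hH hHA
  have h1 : (poss3 (x + 2) H).card ≤
      (Icc (-(H : ℤ)) H ×ˢ W x A (4 * H ^ 2) (38 * H ^ 3)).card := by
    refine card_le_card_of_injOn (fun c => (c.1, (c.1 ^ 2 - 3 * c.2.1,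
      2 * c.1 ^ 3 - 9 * c.1 * c.2.1 + 27 * c.2.2))) ?_ ?_
    · intro c hc
      have h2 := hx H hH hHA c hc
      rw [mem_coe, mem_product, mem_Icc]
      have h3 := abs_le.1 (mem_poss3 hc).1
      exact ⟨h3, h2⟩
    · rintro ⟨a, b, c⟩ _ ⟨a', b', c'⟩ _ h
      simp only [Prod.mk.injEq] at h ⊢
      obtain ⟨rfl, h2, h3⟩ := h
      have h4 : b = b' := by linarith
      subst h4
      exact ⟨rfl, rfl, by linarith⟩
  refine h1.trans ?_
  rw [card_product, Int.card_Icc]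
  refine Nat.mul_le_mul_right _ ?_
  omega

end Pool.Agent.R503.CT
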