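import Mathlib

/-!
# The number of representations by `x² - Δ m²`
-/

set_option autoImplicit false

open Finset

namespace Pool.Agent.R503.CT

/-- square roots of `Δ` modulo `b` -/
def roots (Δ : ℤ) (b : ℕ) : Finset ℕ := (range b).filter fun z => (b : ℤ) ∣ (z : ℤ) ^ 2 - Δ

lemma class_card (b l : ℕ) (hl : 0 < l) (hlb : l ∣ b) (S : Finset ℕ) (hS : ∀ z ∈ S, z < b)
    (h : ∀ z ∈ S, ∀ z' ∈ S, (l : ℤ) ∣ (z : ℤ) - z') : S.card ≤ b / l := by
  rw [← card_range (b / l)]
  refine card_le_card_of_injOn (fun z => z / l) ?_ ?_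
  · intro z hz
    rw [coe_range, Set.mem_Iio]
    exact Nat.div_lt_div_of_lt_of_dvd hlb (hS z hz)
  · intro z hz z' hz' hzz
    have h1 := h z hz z' hz'
    have h2 : (z : ℤ) ≡ z' [ZMOD l] :=
      Int.emod_eq_emod_iff_emod_sub_eq_zero.2 (Int.emod_eq_zero_of_dvd h1)
    have h3 : z % l = z' % l := by
      have := Int.natCast_modEq_iff.1 h2
      exact this
    have h4 : z / l = z' / l := hzz
    rw [← Nat.div_add_mod z l, ← Nat.div_add_mod z' l, h3, h4]

theorem roots_card (Δ : ℤ) (b C : ℕ) (hb : 0 < b) (hC : ∀ h : ℕ, (h : ℤ) ^ 2 ∣ 4 * Δ → h ≤ C) :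
    (roots Δ b).card ≤ b.divisors.card * C := by
  classical
  rcases (roots Δ b).eq_empty_or_nonempty with he | ⟨z₀, hz₀⟩
  · rw [he]; simp
  unfold roots at hz₀
  rw [mem_filter, mem_range] at hz₀
  have hmaps : ∀ z ∈ roots Δ b, Nat.gcd b ((z : ℤ) - z₀).natAbs ∈ b.divisors := by
    intro z _
    rw [Nat.mem_divisors]
    exact ⟨Nat.gcd_dvd_left _ _, hb.ne'⟩
  have hmain := card_le_mul_card_image_of_maps_to hmaps C ?_
  · rw [mul_comm]
    exact hmain
  intro d hd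
  rw [Nat.mem_divisors] at hd
  obtain ⟨e, he⟩ := hd.1
  have hd0 : 0 < d := Nat.pos_of_dvd_of_pos hd.1 hb
  have he0 : 0 < e := by
    rcases Nat.eq_zero_or_pos e with h | h
    · rw [h, mul_zero] at he; omega
    · exact h
  have key : ∀ z ∈ (roots Δ b).filter (fun z : ℕ => Nat.gcd b ((z : ℤ) - z₀).natAbs = d),
      z < b ∧ (d : ℤ) ∣ (z : ℤ) - z₀ ∧ (e : ℤ) ∣ (z : ℤ) + z₀ := by
    intro z hz
    rw [mem_filter] at hz
    obtain ⟨h1, h2⟩ := hz
    unfold roots at h1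
    rw [mem_filter, mem_range] at h1
    have h3 : (d : ℤ) ∣ (z : ℤ) - z₀ := by
      rw [Int.natCast_dvd, ← h2]
      exact Nat.gcd_dvd_right _ _
    refine ⟨h1.1, h3, ?_⟩
    obtain ⟨k, hk⟩ := h3
    have h4 : (b : ℤ) ∣ ((z : ℤ) - z₀) * (z + z₀) := by
      have : ((z : ℤ) - z₀) * (z + z₀) = ((z : ℤ) ^ 2 - Δ) - ((z₀ : ℤ) ^ 2 - Δ) := by ring
      rw [this]
      exact dvd_sub h1.2 hz₀.2
    have hbz : (b : ℤ) = d * e := by exact_mod_cast he
    rw [hk, hbz, mul_assoc] at h4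
    have hdz : (d : ℤ) ≠ 0 := by exact_mod_cast hd0.ne'
    have h5 : (e : ℤ) ∣ k * (z + z₀) := (mul_dvd_mul_iff_left hdz).1 h4
    have h6 : Nat.Coprime e k.natAbs := by
      rw [hk, Int.natAbs_mul, Int.natAbs_natCast, he, Nat.gcd_mul_left] at h2
      have : d * Nat.gcd e k.natAbs = d * 1 := by rw [h2, mul_one]
      exact Nat.eq_of_mul_eq_mul_left hd0 this
    have h7 : IsCoprime (e : ℤ) k := by
      rw [Int.isCoprime_iff_gcd_eq_one]
      simpa [Int.gcd] using h6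
    exact h7.dvd_of_dvd_mul_left h5
  set F := (roots Δ b).filter (fun z : ℕ => Nat.gcd b ((z : ℤ) - z₀).natAbs = d) with hF
  rcases F.eq_empty_or_nonempty with hFe | ⟨z₁, hz₁⟩
  · rw [hFe]; simp
  have hl0 : 0 < Nat.lcm d e := Nat.lcm_pos hd0 he0
  have hlb : Nat.lcm d e ∣ b := by
    rw [he]
    exact Nat.lcm_dvd (dvd_mul_right _ _) (dvd_mul_left _ _)
  have h1 := class_card b (Nat.lcm d e) hl0 hlb F (fun z hz => (key z hz).1) (by
    intro z hz z' hz'
    obtain ⟨_, a1, a2⟩ := key z hz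
    obtain ⟨_, b1, b2⟩ := key z' hz'
    have c1 : (d : ℤ) ∣ (z : ℤ) - z' := by
      have : (z : ℤ) - z' = (z - z₀) - (z' - z₀) := by ring
      rw [this]; exact dvd_sub a1 b1
    have c2 : (e : ℤ) ∣ (z : ℤ) - z' := by
      have : (z : ℤ) - z' = (z + z₀) - (z' + z₀) := by ring
      rw [this]; exact dvd_sub a2 b2
    rw [Int.natCast_dvd]
    exact Nat.lcm_dvd (Int.natCast_dvd.1 c1) (Int.natCast_dvd.1 c2))
  have h2 : b / Nat.lcm d e = Nat.gcd d e := by
    rw [he, ← Nat.gcd_mul_lcm d e]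
    exact Nat.mul_div_cancel _ hl0
  rw [h2] at h1
  refine h1.trans (hC _ ?_)
  set g := Nat.gcd d e with hg
  obtain ⟨_, k1, k2⟩ := key z₁ hz₁
  have hgd : (g : ℤ) ∣ d := Int.natCast_dvd_natCast.2 (Nat.gcd_dvd_left _ _)
  have hge : (g : ℤ) ∣ e := Int.natCast_dvd_natCast.2 (Nat.gcd_dvd_right _ _)
  have h3 : (g : ℤ) ∣ 2 * z₀ := by
    have : 2 * (z₀ : ℤ) = (z₁ + z₀) - (z₁ - z₀) := by ring
    rw [this]
    exact dvd_sub (hge.trans k2) (hgd.trans k1)
  have h4 : (g : ℤ) ^ 2 ∣ 4 * (z₀ : ℤ) ^ 2 := by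
    have : 4 * (z₀ : ℤ) ^ 2 = (2 * z₀) ^ 2 := by ring
    rw [this]
    exact pow_dvd_pow_of_dvd h3 2
  have h5 : (g : ℤ) ^ 2 ∣ 4 * ((z₀ : ℤ) ^ 2 - Δ) := by
    have h6 : (g : ℤ) ^ 2 ∣ (b : ℤ) := by
      have hbz : (b : ℤ) = d * e := by exact_mod_cast he
      rw [hbz, pow_two]
      exact mul_dvd_mul hgd hge
    exact (h6.trans hz₀.2).mul_left 4
  have h6 : 4 * Δ = 4 * (z₀ : ℤ) ^ 2 - 4 * ((z₀ : ℤ) ^ 2 - Δ) := by ring
  rw [h6]
  exact dvd_sub h4 h5

/-! ### One class of solutions -/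

/-- a set of solutions which differ by units, all positive -/
lemma pos_card (Δ : ℤ) (hΔ : 0 < Δ) (hΔs : ¬ IsSquare Δ) (k : ℤ) (hk : k ≠ 0) (X : ℕ) (hX : 1 ≤ X)
    (T : Finset (ℤ × ℤ)) (h1 : ∀ s ∈ T, s.1 ^ 2 - Δ * s.2 ^ 2 = k ∧ |s.1| ≤ X ∧ |s.2| ≤ X ∧
      0 < (s.1 : ℝ) + s.2 * √(Δ : ℝ))
    (h2 : ∀ s ∈ T, ∀ t ∈ T, ∃ p q : ℤ, p ^ 2 - Δ * q ^ 2 = 1 ∧ t.1 = p * s.1 - Δ * q * s.2 ∧
      t.2 = p * s.2 - q * s.1) :
    T.card ≤ Nat.log 2 ((X * (1 + Δ.natAbs)) ^ 2) + 1 := by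
  set r : ℝ := √(Δ : ℝ) with hr
  have hΔr : (0 : ℝ) < Δ := by exact_mod_cast hΔ
  have hrr : r * r = Δ := Real.mul_self_sqrt hΔr.le
  have hr0 : 0 < r := Real.sqrt_pos.2 hΔr
  have hΔ1 : (1 : ℝ) ≤ Δ := by exact_mod_cast hΔ
  have hrΔ : r ≤ Δ := by nlinarith
  set M : ℕ := X * (1 + Δ.natAbs) with hM
  have hMr : (M : ℝ) = X * (1 + Δ) := by
    rw [hM]
    push_cast
    rw [Nat.cast_natAbs, abs_of_pos hΔ]
  have hX1 : (1 : ℝ) ≤ X := by exact_mod_cast hX
  have hM0 : (0 : ℝ) < M := by rw [hMr]; positivity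
  set al : ℤ × ℤ → ℝ := fun s => (s.1 : ℝ) + s.2 * r with hal
  have hbd : ∀ s ∈ T, al s ≤ M ∧ 1 ≤ al s * M := by
    intro s hs
    obtain ⟨a1, a2, a3, a4⟩ := h1 s hs
    have b1 : |(s.1 : ℝ)| ≤ X := by exact_mod_cast a2
    have b2 : |(s.2 : ℝ)| ≤ X := by exact_mod_cast a3
    have c1 : ∀ v : ℝ, |v| ≤ r → |(s.1 : ℝ) + s.2 * v| ≤ M := by
      intro v hv
      calc |(s.1 : ℝ) + s.2 * v| ≤ |(s.1 : ℝ)| + |(s.2 : ℝ) * v| := abs_add_le _ _
        _ = |(s.1 : ℝ)| + |(s.2 : ℝ)| * |v| := by rw [abs_mul]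
        _ ≤ X + X * Δ := add_le_add b1 (mul_le_mul b2 (hv.trans hrΔ) (abs_nonneg _) (by positivity))
        _ = M := by rw [hMr]; ring
    have d1 := c1 r (by rw [abs_of_pos hr0])
    have d2 := c1 (-r) (by rw [abs_neg, abs_of_pos hr0])
    have e1 : al s * ((s.1 : ℝ) + s.2 * (-r)) = k := by
      have : ((s.1 : ℝ) ^ 2 - Δ * s.2 ^ 2) = k := by exact_mod_cast a1
      rw [← this, ← hrr, hal]
      ring
    refine ⟨(le_abs_self _).trans d1, ?_⟩
    have hk1 : (1 : ℝ) ≤ |(k : ℝ)| := by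
      have := Int.one_le_abs hk
      exact_mod_cast this
    rw [← e1, abs_mul, abs_of_pos (show 0 < al s from a4)] at hk1
    calc (1 : ℝ) ≤ al s * |(s.1 : ℝ) + s.2 * (-r)| := hk1
      _ ≤ al s * M := mul_le_mul_of_nonneg_left d2 (show 0 < al s from a4).le
  have hdouble : ∀ s ∈ T, ∀ t ∈ T, al s < al t → 2 * al s ≤ al t := by
    intro s hs t ht hst
    obtain ⟨p, q, e1, e2, e3⟩ := h2 s hs t ht
    have hs0 : 0 < al s := (h1 s hs).2.2.2
    have e4 : al t = al s * (p - q * r) := by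
      rw [hal]
      simp only
      rw [e2, e3]
      push_cast
      rw [← hrr]
      ring
    have e5 : ((p : ℝ) - q * r) * (p + q * r) = 1 := by
      have : ((p : ℝ) ^ 2 - Δ * q ^ 2) = 1 := by exact_mod_cast e1
      rw [← this, ← hrr]
      ring
    set ε : ℝ := (p : ℝ) - q * r with hε
    have e6 : 1 < ε := by
      by_contra hcon
      rw [not_lt] at hcon
      have : al s * ε ≤ al s * 1 := mul_le_mul_of_nonneg_left hcon hs0.le
      linarith
    have e7 : (p : ℝ) + q * r = 1 / ε := by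
      rw [eq_div_iff (by linarith)]
      linarith
    have e8 : 2 * (p : ℝ) = ε + 1 / ε := by linarith
    have e9 : 0 < 1 / ε := by positivity
    have e10 : 2 < ε + 1 / ε := by
      have h3 : 0 < (ε - 1) ^ 2 / ε := by
        apply div_pos
        · have : 0 < ε - 1 := by linarith
          positivity
        · linarith
      have h4 : (ε - 1) ^ 2 / ε = ε + 1 / ε - 2 := by
        field_simp
        ring
      linarith
    have e11 : (1 : ℝ) < p := by linarith
    have e12 : (2 : ℝ) ≤ p := by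
      have h3 : (1 : ℤ) < p := by exact_mod_cast e11
      exact_mod_cast h3
    have e13 : 1 / ε < 1 := by
      rw [div_lt_one (by linarith)]
      exact e6
    have e14 : 2 ≤ ε := by linarith
    rw [e4]
    nlinarith
  have hinj : ∀ s ∈ T, ∀ t ∈ T, al s = al t → s = t := by
    intro s hs t ht hst
    obtain ⟨p, q, e1, e2, e3⟩ := h2 s hs t ht
    have hs0 : 0 < al s := (h1 s hs).2.2.2
    have e4 : al t = al s * (p - q * r) := by
      rw [hal]
      simp only
      rw [e2, e3]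
      push_cast
      rw [← hrr]
      ring
    have e5 : (p : ℝ) - q * r = 1 := by
      have : al s * (p - q * r) = al s * 1 := by rw [← e4, ← hst, mul_one]
      exact mul_left_cancel₀ hs0.ne' this
    have e6 : (p : ℝ) + q * r = 1 := by
      have : ((p : ℝ) - q * r) * (p + q * r) = 1 := by
        have : ((p : ℝ) ^ 2 - Δ * q ^ 2) = 1 := by exact_mod_cast e1
        rw [← this, ← hrr]
        ring
      rw [e5, one_mul] at this
      exact this
    have e7 : (p : ℝ) = 1 := by linarith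
    have e8 : (q : ℝ) = 0 := by
      have : (q : ℝ) * r = 0 := by linarith
      rcases mul_eq_zero.1 this with h | h
      · exact h
      · exact absurd h hr0.ne'
    have e9 : p = 1 := by exact_mod_cast e7
    have e10 : q = 0 := by exact_mod_cast e8
    rw [e9, e10] at e2 e3
    ext
    · rw [e2]; ring
    · rw [e3]; ring
  set phi : ℤ × ℤ → ℕ := fun s => Nat.log 2 ⌊al s * M⌋₊ with hphi
  have hlt : ∀ s ∈ T, ∀ t ∈ T, al s < al t → phi s < phi t := by
    intro s hs t ht hst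
    have e1 := hdouble s hs t ht hst
    have e2 := (hbd s hs).2
    have e3 : 1 ≤ ⌊al s * M⌋₊ := Nat.le_floor (by exact_mod_cast e2)
    have e4 : ⌊al s * M⌋₊ * 2 ≤ ⌊al t * M⌋₊ := by
      apply Nat.le_floor
      push_cast
      have := Nat.floor_le (show 0 ≤ al s * M by linarith)
      nlinarith
    have e5 : Nat.log 2 (⌊al s * M⌋₊ * 2) = phi s + 1 := by
      rw [hphi]
      exact Nat.log_mul_base (by norm_num) (by omega)
    have e6 : Nat.log 2 (⌊al s * M⌋₊ * 2) ≤ phi t := Nat.log_mono_right e4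
    omega
  rw [← card_range (Nat.log 2 (M ^ 2) + 1)]
  refine card_le_card_of_injOn phi ?_ ?_
  · intro s hs
    rw [coe_range, Set.mem_Iio]
    have e1 := (hbd s hs).1
    have e2 : ⌊al s * M⌋₊ ≤ M ^ 2 := by
      apply Nat.floor_le_of_le
      push_cast
      nlinarith
    have e3 : phi s ≤ Nat.log 2 (M ^ 2) := Nat.log_mono_right e2
    omega
  · intro s hs t ht hst
    rcases lt_trichotomy (al s) (al t) with h | h | h
    · have := hlt s hs t ht h
      have hst' : phi s = phi t := hst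
      omega
    · exact hinj s hs t ht h
    · have := hlt t ht s hs h
      have hst' : phi s = phi t := hst
      omega

/-- a set of solutions which differ by units -/
lemma unit_card (Δ : ℤ) (hΔ : Δ < -1 ∨ 0 < Δ) (hΔs : ¬ IsSquare Δ) (k : ℤ) (hk : k ≠ 0) (X : ℕ)
    (hX : 1 ≤ X)
    (T : Finset (ℤ × ℤ)) (h1 : ∀ s ∈ T, s.1 ^ 2 - Δ * s.2 ^ 2 = k ∧ |s.1| ≤ X ∧ |s.2| ≤ X)
    (h2 : ∀ s ∈ T, ∀ t ∈ T, ∃ p q : ℤ, p ^ 2 - Δ * q ^ 2 = 1 ∧ t.1 = p * s.1 - Δ * q * s.2 ∧
      t.2 = p * s.2 - q * s.1) :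
    T.card ≤ 2 * (Nat.log 2 ((X * (1 + Δ.natAbs)) ^ 2) + 1) := by
  classical
  rcases hΔ with hneg | hpos
  · rcases T.eq_empty_or_nonempty with he | ⟨s, hs⟩
    · rw [he]; simp
    have hsub : T ⊆ {s, (-s.1, -s.2)} := by
      intro t ht
      obtain ⟨p, q, e1, e2, e3⟩ := h2 s hs t ht
      have hq : q = 0 := by
        by_contra hq
        have : 1 ≤ q ^ 2 := by
          have := Int.one_le_abs hq
          nlinarith [sq_abs q]
        nlinarith [sq_nonneg p]
      rw [hq] at e1 e2 e3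
      have hp : p = 1 ∨ p = -1 := by
        have : (p - 1) * (p + 1) = 0 := by linarith
        rcases mul_eq_zero.1 this with h | h
        · left; linarith
        · right; linarith
      rw [mem_insert, mem_singleton]
      rcases hp with hp | hp
      · left
        ext
        · rw [e2, hp]; ring
        · rw [e3, hp]; ring
      · right
        ext
        · rw [e2, hp]; ring
        · rw [e3, hp]; ring
    have := (card_le_card hsub).trans card_le_two
    omega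
  · have hΔr : (0 : ℝ) < Δ := by exact_mod_cast hpos
    have hrr : √(Δ : ℝ) * √(Δ : ℝ) = Δ := Real.mul_self_sqrt hΔr.le
    have hA := pos_card Δ hpos hΔs k hk X hX (T.filter fun s => 0 < (s.1 : ℝ) + s.2 * √(Δ : ℝ))
      (fun s hs => by
        rw [mem_filter] at hs
        obtain ⟨a, b, c⟩ := h1 s hs.1
        exact ⟨a, b, c, hs.2⟩)
      (fun s hs t ht => h2 s (mem_filter.1 hs).1 t (mem_filter.1 ht).1)
    have hB := pos_card Δ hpos hΔs k hk X hX
      ((T.filter fun s => ¬ 0 < (s.1 : ℝ) + s.2 * √(Δ : ℝ)).image fun s => (-s.1, -s.2))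
      (fun s hs => by
        rw [mem_image] at hs
        obtain ⟨t, ht, rfl⟩ := hs
        rw [mem_filter] at ht
        obtain ⟨a, b, c⟩ := h1 t ht.1
        refine ⟨by simpa using a, by simpa using b, by simpa using c, ?_⟩
        push_cast
        have hne : (t.1 : ℝ) + t.2 * √(Δ : ℝ) ≠ 0 := by
          intro h0
          have : ((t.1 : ℝ) + t.2 * √(Δ : ℝ)) * ((t.1 : ℝ) - t.2 * √(Δ : ℝ)) = k := by
            have h3 : ((t.1 : ℝ) ^ 2 - Δ * t.2 ^ 2) = k := by exact_mod_cast a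
            linear_combination h3 - (t.2 : ℝ) ^ 2 * hrr
          rw [h0, zero_mul] at this
          apply hk
          exact_mod_cast this.symm
        have h3 : (t.1 : ℝ) + t.2 * √(Δ : ℝ) < 0 := lt_of_le_of_ne (not_lt.1 ht.2) hne
        linarith)
      (fun s hs t ht => by
        rw [mem_image] at hs ht
        obtain ⟨s', hs', rfl⟩ := hs
        obtain ⟨t', ht', rfl⟩ := ht
        obtain ⟨p, q, e1, e2, e3⟩ := h2 s' (mem_filter.1 hs').1 t' (mem_filter.1 ht').1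
        refine ⟨p, q, e1, ?_, ?_⟩
        · simp only
          rw [e2]; ring
        · simp only
          rw [e3]; ring)
    rw [card_image_of_injective _ (fun s t h => by
      simp only [Prod.mk.injEq, neg_inj] at h
      exact Prod.ext h.1 h.2)] at hB
    have hC := card_filter_add_card_filter_not (s := T) (fun s : ℤ × ℤ => 0 < (s.1 : ℝ) + s.2 * √(Δ : ℝ))
    omega

end Pool.Agent.R503.CT
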