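import Pool.Agent.R503.CT.Norm

/-!
# The number of representations by `x² - Δ m²`: all classes
-/

set_option autoImplicit false

open Finset

namespace Pool.Agent.R503.CT

/-- the solutions of `x² - Δ m² = k` in a box -/
noncomputable def Sol (Δ k : ℤ) (X : ℕ) : Finset (ℤ × ℤ) :=
  ((Icc (-(X : ℤ)) X) ×ˢ (Icc (-(X : ℤ)) X)).filter fun p => p.1 ^ 2 - Δ * p.2 ^ 2 = k

lemma mem_Sol {Δ k : ℤ} {X : ℕ} {s : ℤ × ℤ} :
    s ∈ Sol Δ k X ↔ |s.1| ≤ X ∧ |s.2| ≤ X ∧ s.1 ^ 2 - Δ * s.2 ^ 2 = k := by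
  unfold Sol
  rw [mem_filter, mem_product, mem_Icc, mem_Icc, abs_le, abs_le, and_assoc]

open Classical in
/-- the solutions with content `g` and class `z` -/
noncomputable def Fib (Δ k : ℤ) (X g z : ℕ) : Finset (ℤ × ℤ) :=
  (Sol Δ k X).filter fun s => ∃ x m k₁ : ℤ, s.1 = g * x ∧ s.2 = g * m ∧ k = g ^ 2 * k₁ ∧ k₁ ∣ x - z * m ∧
    k₁ ∣ (z : ℤ) ^ 2 - Δ

lemma fib_card {Δ k : ℤ} (hΔ : Δ < -1 ∨ 0 < Δ) (hΔs : ¬ IsSquare Δ) (hk : k ≠ 0) {X : ℕ}
    (hX : 1 ≤ X) (g z : ℕ) :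
    (Fib Δ k X g z).card ≤ 2 * (Nat.log 2 ((X * (1 + Δ.natAbs)) ^ 2) + 1) := by
  classical
  apply unit_card Δ hΔ hΔs k hk X hX
  · intro s hs
    unfold Fib at hs
    rw [mem_filter, mem_Sol] at hs
    exact ⟨hs.1.2.2, hs.1.1, hs.1.2.1⟩
  · intro s hs t ht
    unfold Fib at hs ht
    rw [mem_filter, mem_Sol] at hs ht
    obtain ⟨⟨_, _, hs1⟩, x, m, k₁, a1, a2, a3, a4, a5⟩ := hs
    obtain ⟨⟨_, _, ht1⟩, x', m', k₂, b1, b2, b3, b4, b5⟩ := ht
    have hg : (g : ℤ) ^ 2 ≠ 0 := by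
      intro h
      rw [h, zero_mul] at a3
      exact hk a3
    have hg' : (g : ℤ) ≠ 0 := fun h => hg (by rw [h]; norm_num)
    have hkk : k₂ = k₁ := by
      have : (g : ℤ) ^ 2 * k₂ = g ^ 2 * k₁ := by rw [← a3, ← b3]
      exact mul_left_cancel₀ hg this
    rw [hkk] at b4
    have hk1 : k₁ ≠ 0 := by
      rintro rfl
      rw [mul_zero] at a3
      exact hk a3
    have e1 : x ^ 2 - Δ * m ^ 2 = k₁ := by
      rw [a1, a2] at hs1
      have : (g : ℤ) ^ 2 * (x ^ 2 - Δ * m ^ 2) = g ^ 2 * k₁ := by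
        rw [← a3, ← hs1]; ring
      exact mul_left_cancel₀ hg this
    have e2 : x' ^ 2 - Δ * m' ^ 2 = k₁ := by
      rw [b1, b2] at ht1
      have : (g : ℤ) ^ 2 * (x' ^ 2 - Δ * m' ^ 2) = g ^ 2 * k₁ := by
        rw [← a3, ← ht1]; ring
      exact mul_left_cancel₀ hg this
    have e3 : k₁ ∣ x * x' - Δ * (m * m') := by
      have : x * x' - Δ * (m * m') = (x - z * m) * x' + z * m * (x' - z * m') +
          m * m' * ((z : ℤ) ^ 2 - Δ) := by ring
      rw [this]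
      exact dvd_add (dvd_add (a4.mul_right _) (b4.mul_left _)) (a5.mul_left _)
    have e4 : k₁ ∣ x' * m - x * m' := by
      have : x' * m - x * m' = (x' - z * m') * m - (x - z * m) * m' := by ring
      rw [this]
      exact dvd_sub (b4.mul_right _) (a4.mul_right _)
    obtain ⟨p, hp⟩ := e3
    obtain ⟨q, hq⟩ := e4
    refine ⟨p, q, ?_, ?_, ?_⟩
    · have : k₁ ^ 2 * (p ^ 2 - Δ * q ^ 2) = k₁ ^ 2 * 1 := by
        calc k₁ ^ 2 * (p ^ 2 - Δ * q ^ 2) = (k₁ * p) ^ 2 - Δ * (k₁ * q) ^ 2 := by ring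
          _ = (x * x' - Δ * (m * m')) ^ 2 - Δ * (x' * m - x * m') ^ 2 := by rw [← hp, ← hq]
          _ = (x ^ 2 - Δ * m ^ 2) * (x' ^ 2 - Δ * m' ^ 2) := by ring
          _ = k₁ ^ 2 * 1 := by rw [e1, e2]; ring
      exact mul_left_cancel₀ (pow_ne_zero 2 hk1) this
    · have h1 : k₁ * x' = k₁ * (p * x - Δ * q * m) := by
        calc k₁ * x' = (x ^ 2 - Δ * m ^ 2) * x' := by rw [e1]
          _ = x * (x * x' - Δ * (m * m')) - Δ * m * (x' * m - x * m') := by ring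
          _ = x * (k₁ * p) - Δ * m * (k₁ * q) := by rw [hp, hq]
          _ = _ := by ring
      have h2 := mul_left_cancel₀ hk1 h1
      rw [b1, a1, a2, h2]
      ring
    · have h1 : k₁ * m' = k₁ * (p * m - q * x) := by
        calc k₁ * m' = (x ^ 2 - Δ * m ^ 2) * m' := by rw [e1]
          _ = m * (x * x' - Δ * (m * m')) - x * (x' * m - x * m') := by ring
          _ = m * (k₁ * p) - x * (k₁ * q) := by rw [hp, hq]
          _ = _ := by ring
      have h2 := mul_left_cancel₀ hk1 h1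
      rw [b2, a1, a2, h2]
      ring

lemma sol_sub {Δ k : ℤ} (hk : k ≠ 0) {X : ℕ} :
    Sol Δ k X ⊆ (k.natAbs.divisors.filter fun g => g ^ 2 ∣ k.natAbs).biUnion fun g => (roots Δ (k.natAbs / g ^ 2)).biUnion fun z =>
      Fib Δ k X g z := by
  classical
  intro s hs
  have hs0 := hs
  rw [mem_Sol] at hs
  obtain ⟨_, _, h1⟩ := hs
  set g : ℕ := Int.gcd s.1 s.2 with hg
  obtain ⟨x, hx⟩ := Int.gcd_dvd_left s.1 s.2
  obtain ⟨m, hm⟩ := Int.gcd_dvd_right s.1 s.2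
  rw [← hg] at hx hm
  set k₁ : ℤ := x ^ 2 - Δ * m ^ 2 with hk₁
  have h2 : k = (g : ℤ) ^ 2 * k₁ := by
    rw [← h1, hx, hm, hk₁]; ring
  have hg0 : g ≠ 0 := by
    intro h
    rw [h] at h2
    apply hk
    rw [h2]; norm_num
  have hgz : (g : ℤ) ≠ 0 := by exact_mod_cast hg0
  have hk10 : k₁ ≠ 0 := by
    intro h
    rw [h, mul_zero] at h2
    exact hk h2
  have hcop : IsCoprime x m := by
    rw [Int.isCoprime_iff_gcd_eq_one]
    have h3 : Int.gcd s.1 s.2 = g * Int.gcd x m := by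
      conv_lhs => rw [hx, hm]
      rw [Int.gcd_mul_left, Int.natAbs_natCast]
    rw [← hg] at h3
    have h4 : g * 1 = g * Int.gcd x m := by rw [mul_one]; exact h3
    exact (Nat.eq_of_mul_eq_mul_left (Nat.pos_of_ne_zero hg0) h4).symm
  have hcm : IsCoprime m k₁ := by
    have h3 : IsCoprime m (x ^ 2) := hcop.symm.pow_right
    rw [hk₁]
    have h4 : x ^ 2 - Δ * m ^ 2 = x ^ 2 + m * (-(Δ * m)) := by ring
    rw [h4]
    exact h3.add_mul_left_right _
  obtain ⟨u, v, huv⟩ := hcm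
  -- `u m + v k₁ = 1`
  set b : ℕ := k₁.natAbs with hb
  have hb0 : 0 < b := Int.natAbs_pos.2 hk10
  have hbz : (b : ℤ) ≠ 0 := by exact_mod_cast hb0.ne'
  set z : ℕ := ((x * u) % (b : ℤ)).toNat with hz
  have hz1 : (z : ℤ) = (x * u) % b := Int.toNat_of_nonneg (Int.emod_nonneg _ hbz)
  have hz2 : (b : ℤ) ∣ x * u - z := by
    rw [hz1]
    exact Int.dvd_self_sub_emod
  have hz2' : k₁ ∣ x * u - z := by
    rw [hb] at hz2
    exact Int.natAbs_dvd.1 hz2
  have hz3 : z < b := by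
    have : (z : ℤ) < b := by
      rw [hz1]
      exact Int.emod_lt_of_pos _ (by exact_mod_cast hb0)
    exact_mod_cast this
  have h5 : k₁ ∣ x - z * m := by
    have : x - z * m = (x * u - z) * m + x * v * k₁ := by
      linear_combination (-x) * huv
    rw [this]
    exact dvd_add (hz2'.mul_right _) (dvd_mul_left _ _)
  have h6 : k₁ ∣ (z : ℤ) ^ 2 - Δ := by
    have h7 : k₁ ∣ m ^ 2 * ((z : ℤ) ^ 2 - Δ) := by
      have : m ^ 2 * ((z : ℤ) ^ 2 - Δ) = k₁ - (x - z * m) * (x + z * m) := by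
        rw [hk₁]; ring
      rw [this]
      exact dvd_sub dvd_rfl (h5.mul_right _)
    have h8 : IsCoprime k₁ (m ^ 2) := by
      have : IsCoprime m k₁ := ⟨u, v, huv⟩
      exact this.symm.pow_right
    exact h8.dvd_of_dvd_mul_left h7
  have h7 : k.natAbs = g ^ 2 * b := by
    rw [h2, Int.natAbs_mul, Int.natAbs_pow, Int.natAbs_natCast]
  have h8 : k.natAbs / g ^ 2 = b := by
    rw [h7]
    exact Nat.mul_div_cancel_left _ (by positivity)
  rw [mem_biUnion]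
  refine ⟨g, ?_, ?_⟩
  · rw [mem_filter, Nat.mem_divisors]
    refine ⟨⟨?_, by simpa using hk⟩, ?_⟩
    · rw [h7, pow_two, mul_assoc]
      exact dvd_mul_right _ _
    · rw [h7]
      exact dvd_mul_right _ _
  · rw [mem_biUnion, h8]
    refine ⟨z, ?_, ?_⟩
    · unfold roots
      rw [mem_filter, mem_range]
      refine ⟨hz3, ?_⟩
      rw [hb]
      exact Int.natAbs_dvd.2 h6
    · unfold Fib
      rw [mem_filter]
      exact ⟨hs0, x, m, k₁, hx, hm, h2, h5, h6⟩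

/-- **The number of representations in a box.** -/
theorem sol_card {Δ k : ℤ} (hΔ : Δ < -1 ∨ 0 < Δ) (hΔs : ¬ IsSquare Δ) (hk : k ≠ 0) {X : ℕ}
    (hX : 1 ≤ X) (C : ℕ) (hC : ∀ h : ℕ, (h : ℤ) ^ 2 ∣ 4 * Δ → h ≤ C) :
    (Sol Δ k X).card ≤ k.natAbs.divisors.card *
      ((k.natAbs.divisors.card * C) * (2 * (Nat.log 2 ((X * (1 + Δ.natAbs)) ^ 2) + 1))) := by
  classical
  refine (card_le_card (sol_sub hk)).trans ?_
  refine (card_biUnion_le_card_mul _ _
    ((k.natAbs.divisors.card * C) * (2 * (Nat.log 2 ((X * (1 + Δ.natAbs)) ^ 2) + 1))) ?_).trans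
    (Nat.mul_le_mul_right _ (card_filter_le _ _))
  intro g hg
  rw [mem_filter, Nat.mem_divisors] at hg
  have hd := hg.2
  refine (card_biUnion_le_card_mul _ _ (2 * (Nat.log 2 ((X * (1 + Δ.natAbs)) ^ 2) + 1))
    fun z _ => fib_card hΔ hΔs hk hX g z).trans ?_
  refine Nat.mul_le_mul_right _ ?_
  rcases Nat.eq_zero_or_pos (k.natAbs / g ^ 2) with h0 | h0
  · rw [h0]
    have : roots Δ 0 = ∅ := by
      unfold roots
      simp
    rw [this, card_empty]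
    exact Nat.zero_le _
  · refine (roots_card Δ _ C h0 hC).trans (Nat.mul_le_mul_right _ ?_)
    exact card_le_card (Nat.divisors_subset_of_dvd (by simpa using hk) (Nat.div_dvd_of_dvd hd))

end Pool.Agent.R503.CT
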